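import Mathlib

set_option autoImplicit false

/-!
# Asymptotic stability of a one-delay equation with sign-changing coefficient: no constant

For every `M > 0` there is a delay equation `x'(t) + a(t) x(h(t)) = 0` with continuous bounded
coefficient, constant delay and `0 < liminf ∫ ≤ limsup ∫ < M` that is not asymptotically stable.
-/

namespace Pool.Agent.Results.MP_5ce401_an.NoConstant

open MeasureTheory Set Filter Real

/-- `x` is the solution of `x'(t) + a(t) x(h(t)) = 0`, `t ≥ t₀`, with initial function `ψ`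
(continuous and bounded on `(-∞, t₀]`). -/
def IsSol (a h : ℝ → ℝ) (t₀ : ℝ) (ψ x : ℝ → ℝ) : Prop :=
  ContinuousOn ψ (Iic t₀) ∧ (∃ C, ∀ t ≤ t₀, |ψ t| ≤ C) ∧ (∀ t ≤ t₀, x t = ψ t) ∧ Continuous x ∧
    ∀ t, t₀ < t → HasDerivAt x (-(a t * x (h t))) t

/-- Asymptotic stability of (E). -/
def AS (a h : ℝ → ℝ) (t₀ : ℝ) : Prop :=
  (∀ ε > 0, ∃ δ > 0, ∀ ψ x : ℝ → ℝ, IsSol a h t₀ ψ x → (∀ t ≤ t₀, |ψ t| ≤ δ) →
    ∀ t, t₀ ≤ t → |x t| < ε) ∧
  ∀ ψ x : ℝ → ℝ, IsSol a h t₀ ψ x → Tendsto x atTop (nhds 0)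

/-- the coefficient of the example -/
noncomputable def aa (ε t : ℝ) : ℝ := -(ε * cos t) / (1 + ε * cos t)

lemma den_bd {ε : ℝ} (h0 : 0 < ε) (h1 : ε ≤ 1 / 2) (t : ℝ) : 1 / 2 ≤ 1 + ε * cos t ∧ 1 + ε * cos t ≤ 3 / 2 := by
  have h2 := neg_one_le_cos t
  have h3 := cos_le_one t
  constructor <;> nlinarith

lemma aa_cont {ε : ℝ} (h0 : 0 < ε) (h1 : ε ≤ 1 / 2) : Continuous (aa ε) := by
  unfold aa
  apply Continuous.div (by fun_prop) (by fun_prop)
  intro t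
  have := (den_bd h0 h1 t).1
  linarith

lemma aa_bd {ε : ℝ} (h0 : 0 < ε) (h1 : ε ≤ 1 / 2) (t : ℝ) : |aa ε t| ≤ 2 * ε := by
  unfold aa
  have h2 := (den_bd h0 h1 t).1
  rw [abs_div, abs_neg, abs_mul, abs_of_pos h0, abs_of_pos (by linarith : 0 < 1 + ε * cos t), 
    div_le_iff₀ (by linarith)]
  have := abs_cos_le_one t
  nlinarith

lemma aa_eq {ε : ℝ} (h0 : 0 < ε) (h1 : ε ≤ 1 / 2) (t : ℝ) : 
    aa ε t = -(ε * cos t) + ε ^ 2 * cos t ^ 2 / (1 + ε * cos t) := by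
  unfold aa
  have h2 := (den_bd h0 h1 t).1
  have h3 : 1 + ε * cos t ≠ 0 := by linarith
  field_simp
  ring

lemma aa_lo {ε : ℝ} (h0 : 0 < ε) (h1 : ε ≤ 1 / 2) (t : ℝ) : 
    -(ε * cos t) + ε ^ 2 / 2 * cos t ^ 2 ≤ aa ε t := by
  rw [aa_eq h0 h1]
  have h2 := den_bd h0 h1 t
  have h3 : ε ^ 2 / 2 * cos t ^ 2 ≤ ε ^ 2 * cos t ^ 2 / (1 + ε * cos t) := by
    rw [le_div_iff₀ (by linarith)]
    have : 0 ≤ ε ^ 2 * cos t ^ 2 := by positivity
    nlinarith
  linarith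

lemma aa_hi {ε : ℝ} (h0 : 0 < ε) (h1 : ε ≤ 1 / 2) (t : ℝ) : 
    aa ε t ≤ -(ε * cos t) + 2 * ε ^ 2 * cos t ^ 2 := by
  rw [aa_eq h0 h1]
  have h2 := den_bd h0 h1 t
  have h3 : ε ^ 2 * cos t ^ 2 / (1 + ε * cos t) ≤ 2 * ε ^ 2 * cos t ^ 2 := by
    rw [div_le_iff₀ (by linarith)]
    have : 0 ≤ ε ^ 2 * cos t ^ 2 := by positivity
    nlinarith
  linarith

lemma aa_per (ε : ℝ) : Function.Periodic (aa ε) (2 * π) := by
  intro t
  unfold aa
  rw [cos_add_two_pi]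

lemma int_poly (ε c : ℝ) : ∫ t in (0 : ℝ)..(2 * π), (-(ε * cos t) + c * cos t ^ 2) = c * π := by
  rw [intervalIntegral.integral_add (Continuous.intervalIntegrable (by fun_prop) _ _) 
    (Continuous.intervalIntegrable (by fun_prop) _ _), intervalIntegral.integral_neg, 
    intervalIntegral.integral_const_mul, intervalIntegral.integral_const_mul, integral_cos, integral_cos_sq]
  simp

lemma per_lo {ε : ℝ} (h0 : 0 < ε) (h1 : ε ≤ 1 / 2) : 
    ε ^ 2 / 2 * π ≤ ∫ t in (0 : ℝ)..(2 * π), aa ε t := by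
  rw [← int_poly ε]
  apply intervalIntegral.integral_mono_on (by positivity) (Continuous.intervalIntegrable (by fun_prop) _ _)
    ((aa_cont h0 h1).intervalIntegrable _ _)
  intro t _
  exact aa_lo h0 h1 t

lemma per_hi {ε : ℝ} (h0 : 0 < ε) (h1 : ε ≤ 1 / 2) : 
    ∫ t in (0 : ℝ)..(2 * π), aa ε t ≤ 2 * ε ^ 2 * π := by
  rw [← int_poly ε (2 * ε ^ 2)]
  apply intervalIntegral.integral_mono_on (by positivity) ((aa_cont h0 h1).intervalIntegrable _ _)
    (Continuous.intervalIntegrable (by fun_prop) _ _)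
  intro t _
  exact aa_hi h0 h1 t

/-- the integral over the delay interval -/
lemma delay_int {ε : ℝ} (h0 : 0 < ε) (h1 : ε ≤ 1 / 2) (k : ℕ) (t : ℝ) :
    ∫ s in (t - (2 * π * k - π / 2))..t, aa ε s = 
      k * (∫ s in (0 : ℝ)..(2 * π), aa ε s) - ∫ s in t..(t + π / 2), aa ε s := by
  have hI : ∀ a b, IntervalIntegrable (aa ε) volume a b := fun a b => (aa_cont h0 h1).intervalIntegrable a b
  have e1 : ∫ s in (t - (2 * π * k - π / 2))..t, aa ε s = 
      (∫ s in (t - 2 * π * k)..t, aa ε s) - ∫ s in (t - 2 * π * k)..(t - (2 * π * k - π / 2)), aa ε s := by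
    rw [intervalIntegral.integral_interval_sub_left (hI _ _) (hI _ _)]
  have e2 : ∫ s in (t - 2 * π * k)..t, aa ε s = k * (∫ s in (0 : ℝ)..(2 * π), aa ε s) := by
    have h := (aa_per ε).intervalIntegral_add_zsmul_eq (k : ℤ) (t - 2 * π * k) (fun a b => hI a b)
    have e : t - 2 * π * k + (k : ℤ) • (2 * π) = t := by
      rw [zsmul_eq_mul]; push_cast; ring
    rw [e] at h
    rw [h, zsmul_eq_mul, (aa_per ε).intervalIntegral_add_eq (t - 2 * π * k) 0]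
    push_cast
    rw [zero_add]
  have e3 : ∫ s in (t - 2 * π * k)..(t - (2 * π * k - π / 2)), aa ε s = ∫ s in t..(t + π / 2), aa ε s := by
    have h4 : ∀ s, aa ε (s - 2 * π * k) = aa ε s := by
      intro s
      have := (aa_per ε).sub_nat_mul_eq (x := s) k
      rw [← this]
      congr 1
      ring
    have h5 := intervalIntegral.integral_comp_sub_right (aa ε) (2 * π * k) (a := t) (b := t + π / 2)
    rw [show t - (2 * π * k - π / 2) = t + π / 2 - 2 * π * k by ring, ← h5]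
    simp only [h4]
  rw [e1, e2, e3]

lemma quarter {ε : ℝ} (h0 : 0 < ε) (h1 : ε ≤ 1 / 2) (t : ℝ) :
    |∫ s in t..(t + π / 2), aa ε s| ≤ π * ε := by
  have h := intervalIntegral.norm_integral_le_of_norm_le_const (a := t) (b := t + π / 2) (f := aa ε) 
    (C := 2 * ε) (fun s _ => aa_bd h0 h1 s)
  rw [norm_eq_abs] at h
  refine h.trans (le_of_eq ?_)
  rw [add_sub_cancel_left, abs_of_pos (by positivity)]
  ring

lemma delay_bds {ε : ℝ} (h0 : 0 < ε) (h1 : ε ≤ 1 / 2) : ∃ k : ℕ, 0 < k ∧ ∀ t : ℝ, 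
    π * ε ≤ ∫ s in (t - (2 * π * k - π / 2))..t, aa ε s ∧ 
    ∫ s in (t - (2 * π * k - π / 2))..t, aa ε s ≤ 4 * π * ε := by
  set δ := ∫ s in (0 : ℝ)..(2 * π), aa ε s with hδ
  have hlo := per_lo h0 h1
  have hhi := per_hi h0 h1
  rw [← hδ] at hlo hhi
  have hπ := pi_pos
  have hδ0 : 0 < δ := lt_of_lt_of_le (by positivity) hlo
  refine ⟨⌈2 * π * ε / δ⌉₊, Nat.ceil_pos.2 (by positivity), fun t => ?_⟩
  set k := ⌈2 * π * ε / δ⌉₊ with hk
  have k1 : 2 * π * ε ≤ k * δ := by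
    rw [← div_le_iff₀ hδ0]
    exact Nat.le_ceil _
  have k2 : k * δ ≤ 2 * π * ε + δ := by
    have : (k : ℝ) < 2 * π * ε / δ + 1 := Nat.ceil_lt_add_one (by positivity)
    have h3 := mul_lt_mul_of_pos_right this hδ0
    rw [add_mul, div_mul_cancel₀ _ hδ0.ne', one_mul] at h3
    exact h3.le
  have hq := abs_le.1 (quarter h0 h1 t)
  have h4 : 2 * ε ^ 2 * π ≤ π * ε := by nlinarith [mul_pos hπ h0]
  rw [delay_int h0 h1, ← hδ]
  constructor
  · linarith [hq.2]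
  · linarith [hq.1]

/-- the solution of the example -/
noncomputable def xx (ε t : ℝ) : ℝ := 1 + ε * sin t

lemma xx_delay (ε : ℝ) (k : ℕ) (t : ℝ) : xx ε (t - (2 * π * k - π / 2)) = 1 + ε * cos t := by
  unfold xx
  rw [show t - (2 * π * k - π / 2) = t + π / 2 - k * (2 * π) by ring, sin_sub_nat_mul_two_pi, 
    sin_add_pi_div_two]

lemma xx_sol {ε : ℝ} (h0 : 0 < ε) (h1 : ε ≤ 1 / 2) (k : ℕ) (t₀ : ℝ) : 
    IsSol (aa ε) (fun t => t - (2 * π * k - π / 2)) t₀ (xx ε) (xx ε) := by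
  have hc : Continuous (xx ε) := by unfold xx; fun_prop
  refine ⟨hc.continuousOn, ⟨1 + ε, fun t _ => ?_⟩, fun _ _ => rfl, hc, fun t _ => ?_⟩
  · unfold xx
    refine (abs_add_le _ _).trans ?_
    rw [abs_one, abs_mul, abs_of_pos h0]
    have := abs_sin_le_one t
    nlinarith
  · rw [xx_delay]
    have h2 := (den_bd h0 h1 t).1
    have h3 : 1 + ε * cos t ≠ 0 := by linarith
    have e : -(aa ε t * (1 + ε * cos t)) = ε * cos t := by
      unfold aa
      rw [div_mul_cancel₀ _ h3, neg_neg]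
    rw [e]
    exact ((hasDerivAt_sin t).const_mul ε).const_add 1

theorem result : ∀ M : ℝ, 0 < M → ∀ t₀ : ℝ, ∃ a h : ℝ → ℝ, ContinuousOn a (Ici t₀) ∧ ContinuousOn h (Ici t₀) ∧
    (∀ t, t₀ ≤ t → h t ≤ t) ∧ Tendsto h atTop atTop ∧ (∃ A, ∀ t, t₀ ≤ t → |a t| ≤ A) ∧
    (∃ τ, ∀ t, t₀ ≤ t → t - h t ≤ τ) ∧
    0 < liminf (fun t => ((∫ s in (h t)..t, a s : ℝ) : EReal)) atTop ∧
    limsup (fun t => ((∫ s in (h t)..t, a s : ℝ) : EReal)) atTop < (M : EReal) ∧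
    ¬ AS a h t₀ := by
  intro M hM t₀
  have hπ := pi_pos
  obtain ⟨ε, h0, h1, h2⟩ : ∃ ε : ℝ, 0 < ε ∧ ε ≤ 1 / 2 ∧ 4 * π * ε < M := by
    refine ⟨min (1 / 2) (M / (8 * π)), by positivity, min_le_left _ _, ?_⟩
    have h3 := min_le_right (1 / 2) (M / (8 * π))
    have h4 : 4 * π * min (1 / 2) (M / (8 * π)) ≤ 4 * π * (M / (8 * π)) := by gcongr
    have h5 : 4 * π * (M / (8 * π)) = M / 2 := by field_simp; norm_num
    linarith
  obtain ⟨k, hk, hb⟩ := delay_bds h0 h1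
  have hk1 : (1 : ℝ) ≤ k := by exact_mod_cast hk
  refine ⟨aa ε, fun t => t - (2 * π * k - π / 2), (aa_cont h0 h1).continuousOn, 
    Continuous.continuousOn (by fun_prop), fun t _ => ?_, ?_, ⟨2 * ε, fun t _ => aa_bd h0 h1 t⟩, 
    ⟨2 * π * k - π / 2, fun t _ => ?_⟩, ?_, ?_, ?_⟩
  · show t - (2 * π * k - π / 2) ≤ t
    nlinarith
  · exact tendsto_atTop_add_const_right _ _ tendsto_id
  · show t - (t - (2 * π * k - π / 2)) ≤ _
    linarith
  · refine lt_of_lt_of_le (b := ((π * ε : ℝ) : EReal)) (by exact_mod_cast (by positivity : 0 < π * ε)) ?_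
    refine le_liminf_of_le (by isBoundedDefault) (Eventually.of_forall fun t => ?_)
    exact_mod_cast (hb t).1
  · refine lt_of_le_of_lt (b := ((4 * π * ε : ℝ) : EReal)) ?_ (by exact_mod_cast h2)
    refine limsup_le_of_le (by isBoundedDefault) (Eventually.of_forall fun t => ?_)
    exact_mod_cast (hb t).2
  · rintro ⟨-, hAS⟩
    have h3 := hAS _ _ (xx_sol h0 h1 k t₀)
    have h4 : ∀ t, 1 / 2 ≤ xx ε t := by
      intro t
      unfold xx
      have := neg_one_le_sin t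
      nlinarith
    have := ge_of_tendsto' h3 h4
    linarith

end Pool.Agent.Results.MP_5ce401_an.NoConstant
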